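import Mathlib
import Pool.Agent.Results.MP_69de12_an.HilbertBound
import Pool.Agent.Y332.HN.Sharp

open Pool.Agent.Results.MP_69de12_an.HilbertBound
open Pool.Agent.Y332.HN

namespace Pool.Agent.Results.MP_69de12_an.OptimalComparison

universe u v w

/-- The comparison of approximation numbers and Hilbert numbers with constant `c`:
`∏_{m ≤ n} a_m(S) ≤ c^(n+1) ∏_{k ≤ n} h_k(S)` and `a_n(S) ≤ c G_n(S)`. -/
def Bound {𝕜 : Type u} [RCLike 𝕜] {X : Type v} [NormedAddCommGroup X] [NormedSpace 𝕜 X]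
    {Y : Type w} [NormedAddCommGroup Y] [NormedSpace 𝕜 Y] (c : ℝ) (S : X →L[𝕜] Y) (n : ℕ) : Prop :=
  ∏ m ∈ Finset.range (n + 1), approxNumber m S ≤
      c ^ (n + 1) * ∏ k ∈ Finset.range (n + 1), hilbertNumber k S ∧
    approxNumber n S ≤ c * geomMean n S

/-- The operator `S` satisfies `a_n(S) ≥ 1/2`, `h_n(S) ≤ 1/c_n` and `c_n G_n(S) ≤ C a_n(S)` for
all `n`. -/
def Extremal {𝕜 : Type u} [RCLike 𝕜] {X : Type v} [NormedAddCommGroup X] [NormedSpace 𝕜 X]
    {Y : Type w} [NormedAddCommGroup Y] [NormedSpace 𝕜 Y] (c : ℕ → ℝ) (C : ℝ)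
    (S : X →L[𝕜] Y) : Prop :=
  ∀ n : ℕ, 1 / 2 ≤ approxNumber n S ∧ hilbertNumber n S ≤ 1 / c n ∧
    c n * geomMean n S ≤ C * approxNumber n S

lemma sqrt_pow_self (n : ℕ) :
    √(((n + 1 : ℕ) : ℝ) ^ (n + 1)) = √((n : ℝ) + 1) ^ (n + 1) := by
  rw [Real.sqrt_eq_iff_mul_self_eq (by positivity) (by positivity), ← mul_pow,
    Real.mul_self_sqrt (by positivity)]
  push_cast
  rfl

lemma sqrt_one_div (n : ℕ) : √(1 / ((n : ℝ) + 1)) = 1 / √((n : ℝ) + 1) := by
  rw [Real.sqrt_div zero_le_one, Real.sqrt_one]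

/-- Optimal comparison of approximation numbers `a_n` and Hilbert numbers `h_n`.
(1) For all normed spaces `X, Y`, the comparison holds with constant `n + 1`.
(2), (3) If `X` or `Y` is an inner product space, it holds with constant `√(n + 1)`.
(4) Some operator between Banach spaces has `a_n ≥ 1/2`, `h_n ≤ 1/(n+1)` and
`(n+1) G_n ≤ 2e a_n` for all `n` (the formal identity `ℓ¹ → ℓ^∞`): the constant in (1) is optimal
up to the factor `2e`.
(5), (6) Some operator from a Hilbert space to a Banach space, and some operator from a Banach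
space to a Hilbert space, have `a_n ≥ 1/2`, `h_n ≤ 1/√(n+1)` and `√(n+1) G_n ≤ 2√e a_n` for all
`n` (the formal identities `ℓ² → ℓ^∞` and `ℓ¹ → ℓ²`): the constants in (2) and (3) are optimal up
to the factor `2√e`. -/
theorem result (𝕜 : Type u) [RCLike 𝕜] (X : Type v) [NormedAddCommGroup X]
    (Y : Type w) [NormedAddCommGroup Y] :
    (∀ [NormedSpace 𝕜 X] [NormedSpace 𝕜 Y] (S : X →L[𝕜] Y) (n : ℕ), Bound ((n : ℝ) + 1) S n) ∧
    (∀ [InnerProductSpace 𝕜 X] [NormedSpace 𝕜 Y] (S : X →L[𝕜] Y) (n : ℕ),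
      Bound √((n : ℝ) + 1) S n) ∧
    (∀ [NormedSpace 𝕜 X] [InnerProductSpace 𝕜 Y] (S : X →L[𝕜] Y) (n : ℕ),
      Bound √((n : ℝ) + 1) S n) ∧
    (∃ (E F : Type u) (_ : NormedAddCommGroup E) (_ : NormedSpace 𝕜 E) (_ : CompleteSpace E)
      (_ : NormedAddCommGroup F) (_ : NormedSpace 𝕜 F) (_ : CompleteSpace F) (S : E →L[𝕜] F),
      Extremal (fun n => (n : ℝ) + 1) (2 * Real.exp 1) S) ∧
    (∃ (E F : Type u) (_ : NormedAddCommGroup E) (_ : InnerProductSpace 𝕜 E) (_ : CompleteSpace E)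
      (_ : NormedAddCommGroup F) (_ : NormedSpace 𝕜 F) (_ : CompleteSpace F) (S : E →L[𝕜] F),
      Extremal (fun n => √((n : ℝ) + 1)) (2 * √(Real.exp 1)) S) ∧
    (∃ (E F : Type u) (_ : NormedAddCommGroup E) (_ : NormedSpace 𝕜 E) (_ : CompleteSpace E)
      (_ : NormedAddCommGroup F) (_ : InnerProductSpace 𝕜 F) (_ : CompleteSpace F) (S : E →L[𝕜] F),
      Extremal (fun n => √((n : ℝ) + 1)) (2 * √(Real.exp 1)) S) := by
  refine ⟨?_, ?_, ?_, ?_, ?_, ?_⟩
  · intro _ _ S n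
    refine ⟨?_, HilbertBound.result 𝕜 X Y S n⟩
    have h := general_prod (n + 1) S
    push_cast at h
    exact h
  · intro _ _ S n
    have h := sqrt_prod S (fun m => step_innerX m S) (n + 1)
    refine ⟨?_, sqrt_single S n h⟩
    rw [sqrt_pow_self] at h
    exact h
  · intro _ _ S n
    have h := sqrt_prod S (fun m => step_innerY m S) (n + 1)
    refine ⟨?_, sqrt_single S n h⟩
    rw [sqrt_pow_self] at h
    exact h
  · refine ⟨Ell1 𝕜, EllTop 𝕜, inferInstance, inferInstance, inferInstance, inferInstance,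
      inferInstance, inferInstance, J1T 𝕜, fun n => ⟨a_J1T n, h_J1T n, ?_⟩⟩
    have h := geom_linear n (J1T 𝕜) h_J1T
    have h1 := a_J1T (𝕜 := 𝕜) n
    beta_reduce
    nlinarith [Real.exp_pos 1]
  · refine ⟨Ell2 𝕜, EllTop 𝕜, inferInstance, inferInstance, inferInstance, inferInstance,
      inferInstance, inferInstance, J2T 𝕜, fun n => ⟨a_J2T n, ?_, ?_⟩⟩
    · rw [← sqrt_one_div]
      exact h_J2T n
    have h := geom_sqrt n (J2T 𝕜) h_J2T
    have h1 := a_J2T (𝕜 := 𝕜) n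
    beta_reduce
    nlinarith [Real.sqrt_nonneg (Real.exp 1)]
  · refine ⟨Ell1 𝕜, Ell2 𝕜, inferInstance, inferInstance, inferInstance, inferInstance,
      inferInstance, inferInstance, J12 𝕜, fun n => ⟨a_J12 n, ?_, ?_⟩⟩
    · rw [← sqrt_one_div]
      exact h_J12 n
    have h := geom_sqrt n (J12 𝕜) h_J12
    have h1 := a_J12 (𝕜 := 𝕜) n
    beta_reduce
    nlinarith [Real.sqrt_nonneg (Real.exp 1)]

end Pool.Agent.Results.MP_69de12_an.OptimalComparison
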